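import Mathlib

set_option autoImplicit false

namespace Pool.Agent.H.MP_37d31d_al

/-- the wreath product of a cyclic group of order thirty with the symmetric group on four points -/
abbrev W : Type :=
  SemidirectProduct (Fin 4 → Multiplicative (ZMod 30)) (Equiv.Perm (Fin 4)) mulAutArrow

/-- vectors -/
def vec (a b c d : ZMod 30) : Fin 4 → Multiplicative (ZMod 30) :=
  ![.ofAdd a, .ofAdd b, .ofAdd c, .ofAdd d]

/-- first generator -/
def x : W := ⟨vec 15 0 10 6, Equiv.swap 0 1⟩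
/-- second generator -/
def y : W := ⟨vec 10 0 15 6, Equiv.swap 1 2⟩
/-- third generator -/
def w : W := ⟨vec 10 6 0 15, Equiv.swap 2 3⟩

theorem b1 : x * y * x = y * (x * y) :=
  SemidirectProduct.ext (by decide +kernel) (by decide +kernel)
theorem b2 : y * w * y = w * (y * w) :=
  SemidirectProduct.ext (by decide +kernel) (by decide +kernel)
theorem x2 : x ^ 2 = .inl (vec 15 15 20 12) := by
  rw [pow_two]
  exact SemidirectProduct.ext (by decide +kernel) (by decide +kernel)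
theorem x30 : x ^ 30 = .inl (vec 15 15 0 0) := by
  rw [show x ^ 30 = x ^ (2 * 15) from rfl, pow_mul, x2, ← map_pow]
  exact congrArg _ (by decide +kernel)
theorem x20 : x ^ 20 = .inl (vec 0 0 20 0) := by
  rw [show 20 = 2 * 10 from rfl, pow_mul, x2, ← map_pow]
  exact congrArg _ (by decide +kernel)
theorem x12 : x ^ 12 = .inl (vec 0 0 0 12) := by
  rw [show 12 = 2 * 6 from rfl, pow_mul, x2, ← map_pow]
  exact congrArg _ (by decide +kernel)
theorem n30 : ¬ Commute (x ^ 30) y := by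
  rw [x30]
  intro h
  exact absurd (congrArg SemidirectProduct.left h.eq) (by decide +kernel)
theorem n20 : ¬ Commute (x ^ 20) y := by
  rw [x20]
  intro h
  exact absurd (congrArg SemidirectProduct.left h.eq) (by decide +kernel)
theorem n12 : ¬ Commute (x ^ 12) w := by
  rw [x12]
  intro h
  exact absurd (congrArg SemidirectProduct.left h.eq) (by decide +kernel)
theorem c1 : ∀ σ : Equiv.Perm (Fin 4),
    mulAutArrow (σ * Equiv.swap 0 1 * σ⁻¹) (vec 15 15 0 0) = vec 15 15 0 0 ∨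
    mulAutArrow (σ * Equiv.swap 0 1 * σ⁻¹) (vec 0 0 20 0) = vec 0 0 20 0 ∨
    mulAutArrow (σ * Equiv.swap 0 1 * σ⁻¹) (vec 0 0 0 12) = vec 0 0 0 12 := by decide +kernel

theorem comm (z : W) (v : Fin 4 → Multiplicative (ZMod 30)) (h : mulAutArrow z.right v = v) :
    Commute (.inl v) z := by
  refine SemidirectProduct.ext ?_ ?_
  · simp [h, mul_comm]
  · simp

theorem key (g : W) : Commute (x ^ 30) (g * x * g⁻¹) ∨ Commute (x ^ 20) (g * x * g⁻¹) ∨
    Commute (x ^ 12) (g * x * g⁻¹) := by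
  have e : (g * x * g⁻¹).right = g.right * Equiv.swap 0 1 * g.right⁻¹ := by
    simp [x]
  rw [x30, x20, x12]
  rcases c1 g.right with h | h | h
  · exact Or.inl (comm _ _ (e ▸ h))
  · exact Or.inr (Or.inl (comm _ _ (e ▸ h)))
  · exact Or.inr (Or.inr (comm _ _ (e ▸ h)))

theorem aux {V : Type} [Group V] [Finite V] (x y w : V) (b1 : x * y * x = y * (x * y))
    (b2 : y * w * y = w * (y * w)) (a b c : ℕ) (n30 : ¬ Commute (x ^ a) y)
    (n20 : ¬ Commute (x ^ b) y) (n12 : ¬ Commute (x ^ c) w)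
    (key : ∀ g : V, Commute (x ^ a) (g * x * g⁻¹) ∨ Commute (x ^ b) (g * x * g⁻¹) ∨
      Commute (x ^ c) (g * x * g⁻¹)) :
    ∃ (G : Type) (_ : Group G) (_ : Finite G) (c : G),
    Subgroup.closure {z | IsConj c z} = ⊤ ∧
    ∀ z, IsConj c z → ∃ k : ℕ, Commute (c ^ k) z ∧ ∃ u, IsConj c u ∧ ¬ Commute (c ^ k) u := by
  have hx : x ∈ Subgroup.closure {x, y, w} := Subgroup.subset_closure (by simp)
  have hy : y ∈ Subgroup.closure {x, y, w} := Subgroup.subset_closure (by simp)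
  have hw : w ∈ Subgroup.closure {x, y, w} := Subgroup.subset_closure (by simp)
  have h1 : IsConj (⟨x, hx⟩ : Subgroup.closure {x, y, w}) ⟨y, hy⟩ :=
    isConj_iff.2 ⟨⟨x, hx⟩ * ⟨y, hy⟩, by
      rw [mul_inv_eq_iff_eq_mul]
      exact Subtype.ext (by simpa only [Subgroup.coe_mul] using b1)⟩
  have h2 : IsConj (⟨y, hy⟩ : Subgroup.closure {x, y, w}) ⟨w, hw⟩ :=
    isConj_iff.2 ⟨⟨y, hy⟩ * ⟨w, hw⟩, by
      rw [mul_inv_eq_iff_eq_mul]
      exact Subtype.ext (by simpa only [Subgroup.coe_mul] using b2)⟩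
  have cm : ∀ a b : Subgroup.closure {x, y, w}, Commute a b ↔ Commute (a : V) (b : V) :=
    fun a b => ⟨fun h => congrArg Subtype.val h.eq, fun h => Subtype.ext h.eq⟩
  refine ⟨Subgroup.closure {x, y, w}, inferInstance, inferInstance, ⟨x, hx⟩, ?_, fun z hz => ?_⟩
  · rw [eq_top_iff, ← Subgroup.closure_closure_coe_preimage]
    refine Subgroup.closure_mono ?_
    rintro g (h | h | h)
    · rw [show g = ⟨x, hx⟩ from Subtype.ext h]
      exact IsConj.refl _
    · rw [show g = ⟨y, hy⟩ from Subtype.ext h]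
      exact h1
    · rw [show g = ⟨w, hw⟩ from Subtype.ext h]
      exact h1.trans h2
  · obtain ⟨g, rfl⟩ := isConj_iff.1 hz
    rcases key g with h | h | h
    · exact ⟨a, (cm _ _).2 h, _, h1, fun hc => n30 ((cm _ _).1 hc)⟩
    · exact ⟨b, (cm _ _).2 h, _, h1, fun hc => n20 ((cm _ _).1 hc)⟩
    · exact ⟨c, (cm _ _).2 h, _, h1.trans h2, fun hc => n12 ((cm _ _).1 hc)⟩

/-- abstract form -/
theorem main : ∃ (G : Type) (_ : Group G) (_ : Finite G) (c : G),
    Subgroup.closure {z | IsConj c z} = ⊤ ∧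
    ∀ z, IsConj c z → ∃ k : ℕ, Commute (c ^ k) z ∧ ∃ u, IsConj c u ∧ ¬ Commute (c ^ k) u :=
  have : Finite W := Finite.of_equiv _ SemidirectProduct.equivProd.symm
  aux x y w b1 b2 30 20 12 n30 n20 n12 key

/-- a conjugacy class -/
def Cl {G : Type} [Group G] (c : G) : Type := {z : G // IsConj c z}

instance {G : Type} [Group G] (c : G) : Quandle (Cl c) where
  act a b := ⟨a.1 * b.1 * a.1⁻¹, b.2.trans (isConj_iff.2 ⟨a.1, rfl⟩)⟩
  self_distrib := by
    intro a b d
    refine Subtype.ext ?_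
    change a.1 * (b.1 * d.1 * b.1⁻¹) * a.1⁻¹ =
      a.1 * b.1 * a.1⁻¹ * (a.1 * d.1 * a.1⁻¹) * (a.1 * b.1 * a.1⁻¹)⁻¹
    group
  invAct a b := ⟨a.1⁻¹ * b.1 * a.1⁻¹⁻¹, b.2.trans (isConj_iff.2 ⟨a.1⁻¹, rfl⟩)⟩
  left_inv a b := by
    refine Subtype.ext ?_
    change a.1⁻¹ * (a.1 * b.1 * a.1⁻¹) * a.1⁻¹⁻¹ = b.1
    group
  right_inv a b := by
    refine Subtype.ext ?_
    change a.1 * (a.1⁻¹ * b.1 * a.1⁻¹⁻¹) * a.1⁻¹ = b.1
    group
  fix := by
    intro a
    refine Subtype.ext ?_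
    change a.1 * a.1 * a.1⁻¹ = a.1
    group

theorem act_val {G : Type} [Group G] {c : G} (a b : Cl c) :
    (Shelf.act a b).1 = a.1 * b.1 * a.1⁻¹ := rfl

theorem iter_val {G : Type} [Group G] {c : G} (a b : Cl c) (k : ℕ) :
    ((Shelf.act a)^[k] b).1 = a.1 ^ k * b.1 * (a.1 ^ k)⁻¹ := by
  induction k with
  | zero => simp
  | succ k ih =>
    rw [Function.iterate_succ_apply', act_val, ih, pow_succ']
    group

theorem per_iff {G : Type} [Group G] {c : G} (a b : Cl c) (k : ℕ) :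
    Function.minimalPeriod (Shelf.act a) b ∣ k ↔ Commute (a.1 ^ k) b.1 := by
  rw [← Function.isPeriodicPt_iff_minimalPeriod_dvd]
  constructor
  · intro h
    have := congrArg Subtype.val h.eq
    rw [iter_val, mul_inv_eq_iff_eq_mul] at this
    exact this
  · intro h
    refine Subtype.ext ?_
    rw [iter_val, mul_inv_eq_iff_eq_mul]
    exact h.eq

theorem conn {G : Type} [Group G] {c : G} (hc : Subgroup.closure {z | IsConj c z} = ⊤)
    (a b : Cl c) :
    ∃ g ∈ Subgroup.closure (Set.range (Rack.act' : Cl c → Equiv.Perm (Cl c))), g a = b := by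
  have h : ∀ t : G, ∃ g ∈ Subgroup.closure (Set.range (Rack.act' : Cl c → Equiv.Perm (Cl c))),
      ∀ d : Cl c, (g d).1 = t * d.1 * t⁻¹ := by
    intro t
    have ht : t ∈ Subgroup.closure {z | IsConj c z} := hc ▸ Subgroup.mem_top t
    induction ht using Subgroup.closure_induction with
    | mem z hz => exact ⟨_, Subgroup.subset_closure ⟨⟨z, hz⟩, rfl⟩, fun d => rfl⟩
    | one => exact ⟨1, one_mem _, fun d => by simp⟩
    | mul s t _ _ h1 h2 =>
      obtain ⟨g, hg, e⟩ := h1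
      obtain ⟨g', hg', e'⟩ := h2
      refine ⟨g * g', mul_mem hg hg', fun d => ?_⟩
      rw [Equiv.Perm.mul_apply, e, e']
      group
    | inv s _ h1 =>
      obtain ⟨g, hg, e⟩ := h1
      refine ⟨g⁻¹, inv_mem hg, fun d => ?_⟩
      have := e (g⁻¹ d)
      rw [← Equiv.Perm.mul_apply, mul_inv_cancel, Equiv.Perm.one_apply] at this
      rw [this]
      group
  obtain ⟨t, ht⟩ := isConj_iff.1 (a.2.symm.trans b.2)
  obtain ⟨g, hg, e⟩ := h t
  exact ⟨g, hg, Subtype.ext ((e a).trans ht)⟩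

/-- quandle form -/
theorem quandle : ∃ (X : Type) (_ : Quandle X) (_ : Finite X),
    (∀ a b : X, ∃ g ∈ Subgroup.closure (Set.range (Rack.act' : X → Equiv.Perm X)), g a = b) ∧
    ∃ x : X, ∀ z : X, ∃ y : X,
      ¬ Function.minimalPeriod (Shelf.act x) y ∣ Function.minimalPeriod (Shelf.act x) z := by
  obtain ⟨G, _, _, c, hc, h⟩ := main
  refine ⟨Cl c, inferInstance, inferInstanceAs (Finite {z : G // IsConj c z}), conn hc,
    ⟨c, IsConj.refl c⟩, fun z => ?_⟩
  obtain ⟨k, h1, u, hu, h2⟩ := h z.1 z.2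
  exact ⟨⟨u, hu⟩, fun hd => h2 ((per_iff (c := c) ⟨c, IsConj.refl c⟩ ⟨u, hu⟩ k).1
    (hd.trans ((per_iff (c := c) ⟨c, IsConj.refl c⟩ z k).2 h1)))⟩

end Pool.Agent.H.MP_37d31d_al
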